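import Pool.Agent.Helper1.SD.Defs2
import Pool.Agent.Helper1.SD.Cone

set_option autoImplicit false

/-!
Sections of a self-dual cone (module SD-2a).
-/

namespace Pool.Agent.Helper1.SD

open Matrix

/-- The linear functional `x ↦ z ⬝ᵥ x`. -/
def dotLin41 {N : ℕ} (z : Fin N → ℝ) : (Fin N → ℝ) →ₗ[ℝ] ℝ where
  toFun x := z ⬝ᵥ x
  map_add' := dotProduct_add z
  map_smul' c x := by simp

theorem dotLin41_apply {N : ℕ} (z x : Fin N → ℝ) : dotLin41 z x = z ⬝ᵥ x := rfl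

theorem exists_dot41 {N : ℕ} (f : (Fin N → ℝ) →ₗ[ℝ] ℝ) : ∃ z : Fin N → ℝ, ∀ x, f x = z ⬝ᵥ x := by
  refine ⟨fun i => f (fun j => if i = j then 1 else 0), fun x => ?_⟩
  rw [LinearMap.pi_apply_eq_sum_univ f x, dotProduct]
  exact Finset.sum_congr rfl fun i _ => by rw [smul_eq_mul, mul_comm]

variable {N : ℕ} {K : Set (Fin N → ℝ)}

theorem nonneg_of_selfdual41 (hsd : dualOf K = K) {x y : Fin N → ℝ} (hx : x ∈ K) (hy : y ∈ K) :
    0 ≤ x ⬝ᵥ y := by
  rw [← hsd] at hx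
  exact hx y hy

theorem exists_pos (hsd : dualOf K = K) (hfg : ∃ G : Set (Fin N → ℝ), G.Finite ∧ K = coneOf G) :
    ∃ h ∈ K, ∀ x ∈ K, x ≠ 0 → 0 < h ⬝ᵥ x := by
  classical
  obtain ⟨G, hG, hKG⟩ := hfg
  refine ⟨∑ g ∈ hG.toFinset, g, ?_, ?_⟩
  · rw [hKG]
    exact sum_mem_coneOf _ _ fun g hg => subset_coneOf G (by simpa using hg)
  · intro x hx hx0
    have hmem : ∀ g ∈ hG.toFinset, g ∈ K := fun g hg => by
      rw [hKG]; exact subset_coneOf G (by simpa using hg)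
    have hnn : ∀ g ∈ hG.toFinset, 0 ≤ g ⬝ᵥ x := fun g hg =>
      nonneg_of_selfdual41 hsd (hmem g hg) hx
    rw [sum_dotProduct]
    refine lt_of_le_of_ne (Finset.sum_nonneg hnn) ?_
    intro h0
    have hz : ∀ g ∈ hG.toFinset, g ⬝ᵥ x = 0 := (Finset.sum_eq_zero_iff_of_nonneg hnn).1 h0.symm
    have hxx : x ∈ {y : Fin N → ℝ | y ⬝ᵥ x = 0} := by
      have hx' : x ∈ coneOf G := hKG ▸ hx
      refine coneOf_subset (X := {y : Fin N → ℝ | y ⬝ᵥ x = 0}) ?_ ?_ ?_ ?_ hx'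
      · intro g hg
        exact hz g (by simpa using hg)
      · simp
      · intro u hu v hv
        simp only [Set.mem_ofPred_eq] at hu hv ⊢
        rw [add_dotProduct, hu, hv, add_zero]
      · intro c _ u hu
        simp only [Set.mem_ofPred_eq] at hu ⊢
        rw [smul_dotProduct, hu, smul_zero]
    exact hx0 (dotProduct_self_eq_zero.1 hxx)

theorem isPolytope_slice {h : Fin N → ℝ} (hfg : ∃ G : Set (Fin N → ℝ), G.Finite ∧ K = coneOf G)
    (hpos : ∀ x ∈ K, x ≠ 0 → 0 < h ⬝ᵥ x) : IsPolytope (slice K h) := by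
  classical
  obtain ⟨G, hG, hKG⟩ := hfg
  have hGpos : ∀ g ∈ G, g ≠ 0 → 0 < h ⬝ᵥ g := fun g hg h0 =>
    hpos g (by rw [hKG]; exact subset_coneOf G hg) h0
  refine ⟨(fun g => (h ⬝ᵥ g)⁻¹ • g) '' {g | g ∈ G ∧ g ≠ 0},
    (hG.subset fun g hg => hg.1).image _, ?_⟩
  apply Set.Subset.antisymm
  · rintro x ⟨hxK, hx1⟩
    rw [hKG] at hxK
    obtain ⟨t, c, h1, h2, rfl⟩ := hxK
    have e1 : ∑ v ∈ t, c v • v
        = ∑ v ∈ t with v ≠ 0, (c v * (h ⬝ᵥ v)) • ((h ⬝ᵥ v)⁻¹ • v) := by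
      rw [Finset.sum_filter]
      refine Finset.sum_congr rfl fun v hv => ?_
      by_cases h0 : v = 0
      · simp [h0]
      · rw [if_pos h0, smul_smul, mul_assoc, mul_inv_cancel₀ (hGpos v (h1 v hv) h0).ne', mul_one]
    have e2 : ∑ v ∈ t with v ≠ 0, c v * (h ⬝ᵥ v) = 1 := by
      rw [Finset.sum_filter, ← hx1, dotProduct_sum]
      refine Finset.sum_congr rfl fun v hv => ?_
      by_cases h0 : v = 0
      · simp [h0]
      · rw [if_pos h0, dotProduct_smul, smul_eq_mul]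
    rw [e1]
    refine (convex_convexHull ℝ _).sum_mem ?_ e2 ?_
    · intro v hv
      rw [Finset.mem_filter] at hv
      exact mul_nonneg (h2 v hv.1) (hGpos v (h1 v hv.1) hv.2).le
    · intro v hv
      rw [Finset.mem_filter] at hv
      exact subset_convexHull ℝ _ ⟨v, ⟨h1 v hv.1, hv.2⟩, rfl⟩
  · refine convexHull_min ?_ ?_
    · rintro _ ⟨g, ⟨hg, h0⟩, rfl⟩
      have hp := hGpos g hg h0
      refine ⟨?_, ?_⟩
      · rw [hKG]
        exact smul_mem_coneOf (inv_nonneg.2 hp.le) (subset_coneOf G hg)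
      · show h ⬝ᵥ ((h ⬝ᵥ g)⁻¹ • g) = 1
        rw [dotProduct_smul, smul_eq_mul, inv_mul_cancel₀ hp.ne']
    · intro x hx y hy a b ha hb hab
      refine ⟨?_, ?_⟩
      · have hxK := hx.1
        have hyK := hy.1
        rw [hKG] at hxK hyK ⊢
        exact add_mem_coneOf (smul_mem_coneOf ha hxK) (smul_mem_coneOf hb hyK)
      · rw [dotProduct_add, dotProduct_smul, dotProduct_smul, hx.2, hy.2]
        simpa using hab

theorem normalize_mem_slice41 {h : Fin N → ℝ} (hsd : dualOf K = K)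
    (hpos : ∀ x ∈ K, x ≠ 0 → 0 < h ⬝ᵥ x) {x : Fin N → ℝ} (hx : x ∈ K) (h0 : x ≠ 0) :
    (h ⬝ᵥ x)⁻¹ • x ∈ slice K h := by
  have hp := hpos x hx h0
  refine ⟨?_, ?_⟩
  · rw [← hsd] at hx ⊢
    exact smul_mem_dualOf (inv_nonneg.2 hp.le) hx
  · rw [dotProduct_smul, smul_eq_mul, inv_mul_cancel₀ hp.ne']

theorem span_selfdual41 (hsd : dualOf K = K) : Submodule.span ℝ K = ⊤ := by
  by_contra hne
  obtain ⟨f, hf0, hf⟩ := Submodule.exists_le_ker_of_lt_top _ (lt_top_iff_ne_top.2 hne)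
  obtain ⟨z, hz⟩ := exists_dot41 f
  have hzK : ∀ x ∈ K, z ⬝ᵥ x = 0 := fun x hx => by
    rw [← hz]
    exact hf (Submodule.subset_span hx)
  have hz1 : z ∈ K := by
    rw [← hsd]
    intro g hg
    rw [hzK g hg]
  have hz0 : z = 0 := dotProduct_self_eq_zero.1 (hzK z hz1)
  apply hf0
  ext1
  ext1
  simp [hz, hz0]

theorem adim_slice {d : ℕ} {K : Set (Fin (d + 1) → ℝ)} {h : Fin (d + 1) → ℝ}
    (hsd : dualOf K = K) (hpos : ∀ x ∈ K, x ≠ 0 → 0 < h ⬝ᵥ x) : adim (slice K h) = d := by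
  classical
  have hspan := span_selfdual41 hsd
  have hspan2 : Submodule.span ℝ (slice K h) = ⊤ := by
    rw [eq_top_iff, ← hspan, Submodule.span_le]
    intro x hx
    by_cases h0 : x = 0
    · rw [h0]; exact Submodule.zero_mem _
    · have hp := hpos x hx h0
      have : x = (h ⬝ᵥ x) • ((h ⬝ᵥ x)⁻¹ • x) := by
        rw [smul_smul, mul_inv_cancel₀ hp.ne', one_smul]
      rw [this]
      exact Submodule.smul_mem _ _ (Submodule.subset_span (normalize_mem_slice41 hsd hpos hx h0))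
  have hne : (slice K h).Nonempty := by
    by_contra he
    rw [Set.not_nonempty_iff_eq_empty] at he
    rw [he, Submodule.span_empty] at hspan2
    have h1 : Module.finrank ℝ (Fin (d + 1) → ℝ) = 0 := by
      rw [← finrank_top, ← hspan2, finrank_bot]
    simp at h1
  obtain ⟨p0, hp0⟩ := hne
  have hker : vectorSpan ℝ (slice K h) ≤ LinearMap.ker (dotLin41 h) := by
    rw [vectorSpan_def, Submodule.span_le]
    rintro _ ⟨x, hx, y, hy, rfl⟩
    show dotLin41 h (x -ᵥ y) = 0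
    rw [vsub_eq_sub, map_sub, dotLin41_apply, dotLin41_apply, hx.2, hy.2, sub_self]
  have hlt : LinearMap.ker (dotLin41 h) ≠ ⊤ := by
    intro ht
    have : p0 ∈ LinearMap.ker (dotLin41 h) := by rw [ht]; trivial
    have h1 : dotLin41 h p0 = 0 := this
    rw [dotLin41_apply, hp0.2] at h1
    exact one_ne_zero h1
  have hle : Module.finrank ℝ (vectorSpan ℝ (slice K h)) < d + 1 := by
    have h1 := Submodule.finrank_mono hker
    have h2 := Submodule.finrank_lt hlt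
    rw [Module.finrank_fin_fun] at h2
    omega
  have hge : d + 1 ≤ 1 + Module.finrank ℝ (vectorSpan ℝ (slice K h)) := by
    have h1 : Submodule.span ℝ (slice K h) ≤ Submodule.span ℝ {p0} ⊔ vectorSpan ℝ (slice K h) := by
      rw [Submodule.span_le]
      intro x hx
      have : x = p0 + (x -ᵥ p0) := by simp
      rw [this]
      exact Submodule.add_mem_sup (Submodule.mem_span_singleton_self p0)
        (vsub_mem_vectorSpan ℝ hx hp0)
    rw [hspan2] at h1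
    have h2 := Submodule.finrank_mono h1
    rw [finrank_top, Module.finrank_fin_fun] at h2
    have h3 := Submodule.finrank_add_le_finrank_add_finrank (Submodule.span ℝ {p0})
      (vectorSpan ℝ (slice K h))
    have h4 : Module.finrank ℝ (Submodule.span ℝ {p0}) ≤ 1 := by
      simpa using finrank_span_le_card (R := ℝ) ({p0} : Set (Fin (d + 1) → ℝ))
    omega
  show Module.finrank ℝ (vectorSpan ℝ (slice K h)) = d
  omega

theorem exposed_slice_iff {h : Fin N → ℝ} (hsd : dualOf K = K)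
    (hpos : ∀ x ∈ K, x ≠ 0 → 0 < h ⬝ᵥ x) (F : Set (Fin N → ℝ)) (hF : F.Nonempty) :
    IsExposed ℝ (slice K h) F ↔ ∃ g ∈ K, F = slice (perpIn K g) h := by
  constructor
  · intro hexp
    obtain ⟨l, hl⟩ := hexp hF
    obtain ⟨x0, hx0⟩ := hF
    obtain ⟨L, hL⟩ := exists_dot41 (l : (Fin N → ℝ) →ₗ[ℝ] ℝ)
    have hL' : ∀ x, l x = L ⬝ᵥ x := fun x => hL x
    have hx0' := hx0
    rw [hl] at hx0'
    obtain ⟨hx0s, hmax⟩ := hx0'
    have hgdot : ∀ x, ((L ⬝ᵥ x0) • h - L) ⬝ᵥ x = (L ⬝ᵥ x0) * (h ⬝ᵥ x) - L ⬝ᵥ x := fun x => by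
      rw [sub_dotProduct, smul_dotProduct, smul_eq_mul]
    have hgK : (L ⬝ᵥ x0) • h - L ∈ K := by
      rw [← hsd]
      intro x hx
      rw [hgdot]
      by_cases h0 : x = 0
      · simp [h0]
      · have hp := hpos x hx h0
        have h1 := hmax _ (normalize_mem_slice41 hsd hpos hx h0)
        rw [hL', hL', dotProduct_smul, smul_eq_mul, inv_mul_le_iff₀ hp] at h1
        linarith [mul_comm (h ⬝ᵥ x) (L ⬝ᵥ x0)]
    refine ⟨(L ⬝ᵥ x0) • h - L, hgK, ?_⟩
    ext x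
    constructor
    · intro hx
      rw [hl] at hx
      obtain ⟨hxs, hxm⟩ := hx
      have h1 := hxm x0 hx0s
      have h2 := hmax x hxs
      rw [hL', hL'] at h1 h2
      refine ⟨⟨hxs.1, ?_⟩, hxs.2⟩
      rw [hgdot, hxs.2]
      linarith
    · rintro ⟨⟨hxK, hx0e⟩, hx1⟩
      rw [hgdot, hx1] at hx0e
      rw [hl]
      refine ⟨⟨hxK, hx1⟩, fun y hy => ?_⟩
      have h1 := hmax y hy
      rw [hL', hL'] at h1 ⊢
      linarith
  · rintro ⟨g, hg, rfl⟩ _
    obtain ⟨x0, hx0⟩ := hF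
    refine ⟨-(LinearMap.toContinuousLinearMap (dotLin41 g)), ?_⟩
    have happ : ∀ x, (-(LinearMap.toContinuousLinearMap (dotLin41 g)) :
        (Fin N → ℝ) →L[ℝ] ℝ) x = -(g ⬝ᵥ x) := fun x => rfl
    ext x
    constructor
    · rintro ⟨⟨hxK, hxg⟩, hx1⟩
      refine ⟨⟨hxK, hx1⟩, fun y hy => ?_⟩
      rw [happ, happ, hxg]
      have := nonneg_of_selfdual41 hsd hg hy.1
      linarith
    · rintro ⟨hxs, hxm⟩
      have h1 := hxm x0 ⟨hx0.1.1, hx0.2⟩
      rw [happ, happ, hx0.1.2] at h1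
      have h2 := nonneg_of_selfdual41 hsd hg hxs.1
      exact ⟨⟨hxs.1, by linarith⟩, hxs.2⟩

end Pool.Agent.Helper1.SD
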